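import Mathlib

namespace Pool.Agent.Results.MP_96db20_pr.Zero

open MeasureTheory Filter Topology Set
open scoped ENNReal

noncomputable def conv {G : Type} [Group G] (μ : PMF G) : ℕ → PMF G
  | 0 => PMF.pure 1
  | n + 1 => (conv μ n).bind fun g => μ.map (g * ·)

def pos {G : Type} [Group G] (z : List Bool → G) {n : ℕ} (v : Fin n → Bool) : G :=
  (List.ofFn fun k : Fin n => z ((List.ofFn v).take (k + 1))).prod

abbrev F := FreeGroup (Fin 3)

def wd (l : List (Fin 3)) : F := (l.map FreeGroup.of).prod

lemma wd_inj : Function.Injective wd := by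
  have h : ∀ l, (wd l).toWord = l.map (·, true) := fun l => by
    have : wd l = FreeGroup.mk (l.map (·, true)) := by
      induction l with
      | nil => rfl
      | cons a l ih => rw [wd, List.map_cons, List.prod_cons, ← wd, ih]; rfl
    rw [this, FreeGroup.toWord_mk, FreeGroup.IsReduced.reduce_eq]
    rw [FreeGroup.IsReduced, List.isChain_map]
    exact List.isChain_iff_getElem.mpr fun _ _ _ => rfl
  intro a b e
  have := congrArg FreeGroup.toWord e
  rw [h, h] at this
  exact List.map_injective_iff.mpr (fun x y h => (Prod.ext_iff.mp h).1) this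

noncomputable def p : PMF (Fin 3) :=
  PMF.ofFintype (fun i => ENNReal.ofReal (![1 / 100, 1 / 100, 98 / 100] i)) (by
    rw [← ENNReal.ofReal_sum_of_nonneg fun i _ => by fin_cases i <;> norm_num]
    simp only [Fin.sum_univ_three, Matrix.cons_val]
    norm_num)

noncomputable def mu : PMF F := p.map FreeGroup.of

lemma mu_supp : mu.support = range FreeGroup.of := by
  have : ∀ i, p i ≠ 0 := fun i => by fin_cases i <;> simp [p]
  ext
  simp [mu, this]

lemma conv_supp (n : ℕ) : (conv mu n).support = range fun w : Fin n → Fin 3 => wd (List.ofFn w) := by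
  induction n with
  | zero => ext; simp [conv, wd]
  | succ n ih =>
    ext g
    simp only [conv, PMF.mem_support_bind_iff, ih, PMF.mem_support_map_iff, mu_supp, mem_range,
      exists_exists_eq_and]
    constructor
    · rintro ⟨w, i, rfl⟩
      exact ⟨Fin.snoc w i, by simp [wd, List.ofFn_succ_last, -List.ofFn_succ, -List.map_ofFn]⟩
    · rintro ⟨w, rfl⟩
      exact ⟨Fin.init w, w (Fin.last n), by
        simp [wd, List.ofFn_succ_last, Fin.init_def, -List.ofFn_succ, -List.map_ofFn]⟩

section

local instance ms : MeasurableSpace F := ⊤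

noncomputable abbrev P : Measure (List Bool → F) := Measure.infinitePi fun _ => mu.toMeasure

def A {n : ℕ} (w : Fin n → Fin 3) : Set (List Bool → F) := ⋃ v : Fin n → Bool,
  (fun z (k : Fin n) => z ((List.ofFn v).take (k + 1))) ⁻¹' Set.pi univ fun k => {.of (w k)}

lemma A_meas {n : ℕ} (w : Fin n → Fin 3) : MeasurableSet (A w) :=
  .iUnion fun _ => (MeasurableSet.univ_pi fun _ => .of_discrete).preimage (by fun_prop)

noncomputable def c : Fin 3 → ℝ := ![3 / 20, 3 / 20, 7 / 5]

lemma A_le {n : ℕ} (w : Fin n → Fin 3) : P (A w) ≤ ∏ k, ENNReal.ofReal (c (w k)) := by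
  have h : P (A w) ≤ (∏ k, ENNReal.ofReal (c (w k))) ^ 2 := by
    refine (measure_iUnion_fintype_le _ _).trans ?_
    rw [Finset.sum_congr rfl (g := fun _ => ∏ k, p (w k)) fun v _ => ?_]
    · rw [Finset.sum_const, Finset.card_univ, Fintype.card_fun, Fintype.card_bool, Fintype.card_fin,
        nsmul_eq_mul, ← Finset.prod_pow, Nat.cast_pow, ← Fin.prod_const, ← Finset.prod_mul_distrib]
      refine Finset.prod_le_prod' fun k _ => ?_
      generalize w k = i
      rw [p, PMF.ofFintype_apply, ← ENNReal.ofReal_natCast, ← ENNReal.ofReal_mul (by norm_num),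
        ← ENNReal.ofReal_pow (by fin_cases i <;> norm_num [c])]
      refine ENNReal.ofReal_le_ofReal ?_
      fin_cases i <;> norm_num [c]
    rw [← Measure.map_apply (f := fun (z : List Bool → F) (k : Fin n) =>
        z ((List.ofFn v).take (k + 1))) (by fun_prop) (MeasurableSet.univ_pi fun _ => .of_discrete),
      Measure.map_infinitePi_infinitePi_of_inj (P := fun _ => mu.toMeasure)
        (f := fun k : Fin n => (List.ofFn v).take (k + 1)) fun a b h => by
          have := congrArg List.length h
          simp at this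
          omega, ← Finset.coe_univ, Measure.infinitePi_pi _ fun _ _ => .of_discrete]
    refine Finset.prod_congr rfl fun k _ => ?_
    rw [PMF.toMeasure_apply_singleton _ _ .of_discrete, mu, PMF.map_apply, tsum_eq_single (w k)
      fun i hi => by simp [FreeGroup.of_injective.ne hi.symm], if_pos rfl]
  rcases le_total 1 (∏ k, ENNReal.ofReal (c (w k))) with h1 | h1
  · exact prob_le_one.trans h1
  · exact h.trans (by rw [sq]; exact mul_le_of_le_one_left' h1)

lemma cnt : ∀ᵐ z ∂P, ∀ᶠ n in atTop,
    ((range fun v : Fin n → Bool => pos z v).ncard : ℝ) ≤ (9 / 5) ^ n := by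
  classical
  have hm : ∀ n, Measurable fun z => ENNReal.ofReal ((5 / 9) ^ n) *
      ∑ w : Fin n → Fin 3, (A w).indicator (fun _ => (1 : ℝ≥0∞)) z := fun n =>
    (Finset.measurable_sum _ fun w _ => measurable_const.indicator (A_meas w)).const_mul _
  have h0 : ∀ᵐ z ∂P, ∀ u, z u ∈ mu.support := ae_all_iff.mpr fun u => by
    have := (PMF.toMeasure_apply_eq_zero_iff mu (s := mu.supportᶜ) .of_discrete).mpr disjoint_compl_right
    rw [← Measure.infinitePi_map_eval (fun _ : List Bool => mu.toMeasure) u,
      Measure.map_apply (measurable_pi_apply u) .of_discrete] at this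
    exact this
  filter_upwards [h0, ae_lt_top (μ := P) (Measurable.tsum hm) (by
    rw [lintegral_tsum fun n => (hm n).aemeasurable]
    refine ne_top_of_le_ne_top (summable_geometric_of_lt_one (r := 5 / 9 * (17 / 10)) (by norm_num)
      (by norm_num)).tsum_ofReal_ne_top (ENNReal.tsum_le_tsum fun n => ?_)
    rw [lintegral_const_mul' _ _ ENNReal.ofReal_ne_top, mul_pow, ENNReal.ofReal_mul (by positivity),
      lintegral_finsetSum _ fun w _ => measurable_const.indicator (A_meas w)]
    refine mul_le_mul_right ((Finset.sum_le_sum fun w _ => ((lintegral_indicator_const (A_meas w)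
      1).trans (one_mul _)).trans_le (A_le w)).trans_eq ?_) _
    rw [← Fintype.sum_pow fun i => ENNReal.ofReal (c i), ENNReal.ofReal_pow (by norm_num),
      ← ENNReal.ofReal_sum_of_nonneg fun i _ => by fin_cases i <;> norm_num [c]]
    simp only [Fin.sum_univ_three, c, Matrix.cons_val]
    norm_num)] with z h0 hz
  filter_upwards [(ENNReal.tendsto_atTop_zero_of_tsum_ne_top hz.ne).eventually
    (gt_mem_nhds zero_lt_one)] with n hn
  simp only [indicator_apply, Finset.sum_boole] at hn
  rw [← ENNReal.ofReal_natCast, ← ENNReal.ofReal_mul (by positivity), ENNReal.ofReal_lt_one,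
    ← lt_inv_mul_iff₀ (by positivity), mul_one, ← inv_pow, inv_div] at hn
  refine le_trans (Nat.cast_le.mpr ?_) hn.le
  rw [← ncard_coe_finset]
  refine le_trans (ncard_le_ncard ?_) (ncard_image_le (f := fun w => wd (List.ofFn w)))
  rintro _ ⟨v, rfl⟩
  rw [mu_supp] at h0
  choose i hi using h0
  exact ⟨fun k => i ((List.ofFn v).take (k + 1)), by
    simpa [A] using ⟨v, fun k => (hi _).symm⟩, by simp [wd, pos, Function.comp_def, hi]⟩

end

theorem result : ∃ (G : Type) (_ : Group G) (μ : PMF G) (h : ℝ), Infinite G ∧ Group.FG G ∧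
    μ.support.Finite ∧
    Tendsto (fun n : ℕ => Real.log (conv μ n).support.ncard / n) atTop (𝓝 h) ∧ 2 < Real.exp h ∧
    letI : MeasurableSpace G := ⊤
    ∃ a < Real.log 2, ∀ᵐ z ∂(Measure.infinitePi fun _ : List Bool => μ.toMeasure), ∀ᶠ n : ℕ in atTop,
      Real.log (range fun v : Fin n → Bool => pos z v).ncard / n ≤ a := by
  refine ⟨F, inferInstance, mu, Real.log 3, inferInstance, inferInstance,
    mu_supp ▸ finite_range _, ?_, by rw [Real.exp_log] <;> norm_num, Real.log (9 / 5),
    Real.log_lt_log (by norm_num) (by norm_num), cnt.mono fun z h => ?_⟩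
  · refine tendsto_const_nhds.congr' ((eventually_gt_atTop 0).mono fun n hn => ?_)
    simp only [conv_supp]
    rw [← image_univ, ncard_image_of_injective (f := fun w => wd (List.ofFn w)) _
      (wd_inj.comp List.ofFn_injective)]
    simp [hn.ne']
  · filter_upwards [h, eventually_gt_atTop 0] with n h hn
    rw [div_le_iff₀ (by exact_mod_cast hn), mul_comm, ← Real.log_pow]
    exact Real.log_le_log (by
      exact_mod_cast (ncard_pos (finite_range _)).mpr (range_nonempty _)) h

end Pool.Agent.Results.MP_96db20_pr.Zero
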